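import Pool.Agent.N154.TT.Defs
import Pool.Agent.N154.TT.Bro
import Pool.Agent.N154.GG.Geo2

/-! From projective manifolds over complex tori to compact sets of projection matrices. -/

set_option autoImplicit false

open Filter Topology Metric Set LinearAlgebra.Projectivization

namespace Pool.Agent.N154.TT

open FF Pool.Agent.Y190.OP Pool.Agent.W602.GT
open Pool.Agent.N155 (TX isCompact_TX TX_PM exists_shift)
open Pool.Agent.N154.GG (SmoothVariety PositiveTwoForms HyperbolicFibres HolIn HolMap GraphAt TX_cone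
  cone_smul chart_cone contDiffAt_chart toProj toProj_Phi Phi_rep_mk Phi_rep_toProj proj_ext
  holMap_of holP_of mem_TX rep_toProj)

variable {n m : ℕ} {ι : Type} {F : ι → MvPolynomial (Fin (n + 1)) ℂ} {d : ℕ} {K : Type} [Field K]
  [Algebra ℂ K] {y : Fin (n + 1) → K} {L : Submodule ℤ (Fin m → ℂ)}
  {α : (Fin (n + 1) → ℂ) → (Fin m → ℂ) ⧸ L}
  {κ : Type} {η : κ → (Fin (n + 1) → ℂ) → (Fin (n + 1) → ℂ) → (Fin (n + 1) → ℂ) → ℂ}

/-- the function on the matrices -/
noncomputable def aM (L : Submodule ℤ (Fin m → ℂ)) (α : (Fin (n + 1) → ℂ) → (Fin m → ℂ) ⧸ L) (F : ι →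
    MvPolynomial (Fin (n + 1)) ℂ) (M : Mat (n + 1)) : Fin m → ℂ := by
  classical
  exact if h : ∃ u ∈ Cone F, M = Phi u then (α h.choose).out else 0

/-- the lattice -/
noncomputable def La (L : Submodule ℤ (Fin m → ℂ)) : AddSubgroup (Fin m → ℂ) := L.toAddSubgroup

theorem mem_La {L : Submodule ℤ (Fin m → ℂ)} {z : Fin m → ℂ} : z ∈ La L ↔ z ∈ L := Iff.rfl

theorem aM_Phi (hα : HolToTorus (Cone F) L α) {u : Fin (n + 1) → ℂ} (hu : u ∈ Cone F) :
    (Submodule.Quotient.mk (aM L α F (Phi u)) : (Fin m → ℂ) ⧸ L) = α u := by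
  classical
  have h : ∃ v ∈ Cone F, Phi u = Phi v := ⟨u, hu, rfl⟩
  unfold aM
  rw [dif_pos h]
  have h1 := h.choose_spec
  obtain ⟨c, hc, hc'⟩ := Phi_inj hu.1 h1.1.1 h1.2
  have h2 : α h.choose = α u := by
    rw [hc']
    exact hα.homog u hu c hc
  rw [← h2]
  exact Quotient.out_eq _

theorem aM_chart (hX : SmoothVariety F d y) (hα : HolToTorus (Cone F) L α) {M : Mat (n + 1)}
    (hM : M ∈ TX y) {i : Fin (n + 1)} (hi : M i i ≠ 0) :
    (Submodule.Quotient.mk (aM L α F M) : (Fin m → ℂ) ⧸ L) = α (chart i M) := by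
  have h1 := chart_cone hX hM hi
  have h2 := aM_Phi hα h1
  rwa [PM.Phi_chart (TX_PM hM) hi] at h2

theorem mem_La_iff {z w : Fin m → ℂ} : z - w ∈ La L ↔
    (Submodule.Quotient.mk z : (Fin m → ℂ) ⧸ L) = Submodule.Quotient.mk w :=
  (Submodule.Quotient.eq L).symm

/-- lattices are cocompact -/
theorem exists_coc (L : Submodule ℤ (Fin m → ℂ)) [DiscreteTopology L] [IsZLattice ℝ L] :
    ∃ D : ℝ, ∀ z : Fin m → ℂ, ∃ l ∈ L, ‖z - l‖ ≤ D := by
  classical
  have : Module.Free ℤ L := ZLattice.module_free ℝ L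
  have : Module.Finite ℤ L := ZLattice.module_finite ℝ L
  set b0 := Module.Free.chooseBasis ℤ L
  set b := b0.ofZLatticeBasis ℝ L with hb
  refine ⟨∑ i, ‖b i‖, fun z => ⟨ZSpan.floor b z, ?_, ZSpan.norm_fract_le b z⟩⟩
  exact (Module.Basis.ofZLatticeBasis_span ℝ L b0).le (ZSpan.floor b z).2

/-- the torus data -/
theorem td_of [DiscreteTopology L] [IsZLattice ℝ L] (hX : SmoothVariety F d y) (hα : HolToTorus (Cone F) L α) :
    TV (TX y) (La L) (aM L α F) where
  comp := isCompact_TX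
  sub := TX_PM
  disc := by
    have h1 : IsOpen ({0} : Set L) := isOpen_discrete _
    obtain ⟨δ, hδ, h2⟩ := Metric.isOpen_iff.1 h1 0 rfl
    refine ⟨δ, hδ, fun l hl hlδ => ?_⟩
    have h3 : (⟨l, hl⟩ : L) ∈ ball (0 : L) δ := by
      rw [mem_ball_zero_iff]
      exact hlδ
    have h4 := h2 h3
    rw [mem_singleton_iff] at h4
    exact congrArg Subtype.val h4
  coc := by
    obtain ⟨D, hD⟩ := exists_coc L
    exact ⟨D, hD⟩
  loc := by
    intro M0 hM0
    obtain ⟨i, hi⟩ := PM.exists_diag (TX_PM hM0)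
    obtain ⟨w, hw, hwe⟩ := hα.hol _ (chart_cone hX hM0 hi)
    have h1 : ∀ᶠ u in 𝓝 (chart i M0), AnalyticAt ℂ w u ∧
        (u ∈ Cone F → α u = Submodule.Quotient.mk (w u)) := hw.eventually_analyticAt.and hwe
    obtain ⟨V, hVs, hV, hV0⟩ := _root_.mem_nhds_iff.1 h1
    have h2 : ∀ᶠ M : Mat (n + 1) in 𝓝 M0, M i i ≠ 0 ∧ chart i M ∈ V :=
      ((continuous_apply_apply i i).continuousAt.eventually_ne hi).and
        ((continuousAt_chart hi).eventually (hV.mem_nhds hV0))
    obtain ⟨O, hOs, hO, hMO⟩ := _root_.mem_nhds_iff.1 h2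
    refine ⟨O, fun M => w (chart i M), hO, hMO, fun M hM => ?_, fun M hM => ?_, ?_⟩
    · have h3 : ContDiffAt ℝ 1 w (chart i M) :=
        ((hVs (hOs hM).2).1.contDiffAt (n := 1)).restrict_scalars ℝ
      exact h3.comp M (contDiffAt_chart (hOs hM).1)
    · rw [mem_La_iff, aM_chart hX hα hM.2 (hOs hM.1).1]
      exact (hVs (hOs hM.1).2).2 (chart_cone hX hM.2 (hOs hM.1).1)
    · intro U P z _ hz hP hPO
      have h3 := hP.diff_chart hz (hOs hPO).1
      exact ((hVs (hOs hPO).2).1.differentiableAt).comp z h3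

/-- the data of the forms -/
theorem gd_of (hX : SmoothVariety F d y) (hα : HolToTorus (Cone F) L α)
    (hη : PositiveTwoForms (Cone F) d η) : GV (TX y) (La L) (aM L α F) η where
  homog := fun M hM i hi q v w c e f hc => hη.twist q _ (chart_cone hX hM hi) v w c e f hc
  loc := by
    intro M0 hM0
    have hM0' := hM0
    rw [TX_cone hX] at hM0'
    obtain ⟨x0, hx0, rfl⟩ := hM0'
    obtain ⟨i, J, U, Ψ, hxi, hU, hxU, hΨ, hΨX, hev⟩ := hX.smooth x0 hx0
    have hi : Phi x0 i i ≠ 0 := (Phi_diag_ne hx0.1).2 hxi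
    have hch : chart i (Phi x0) = (x0 i)⁻¹ • x0 := chart_Phi hx0.1 hxi
    have hξ0 : (fun k => chart i (Phi x0) (J k)) = fun k => x0 (J k) / x0 i := by
      funext k
      rw [hch, Pi.smul_apply, smul_eq_mul]
      ring
    have hΨ0 : Ψ (fun k => x0 (J k) / x0 i) = chart i (Phi x0) := by
      have h1 := hev.self_of_nhds hx0
      rw [hch]
      conv_rhs => rw [h1]
      rw [smul_smul, Pi.smul_apply, smul_eq_mul, (hΨX _ hxU).2.1, mul_one,
        inv_mul_cancel₀ hxi, one_smul]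
    obtain ⟨w, hw, hwe⟩ := hα.hol _ (chart_cone hX hM0 hi)
    have h1 : ∀ᶠ u in 𝓝 (chart i (Phi x0)), AnalyticAt ℂ w u ∧
        (u ∈ Cone F → α u = Submodule.Quotient.mk (w u)) := hw.eventually_analyticAt.and hwe
    obtain ⟨V, hVs, hV, hV0⟩ := _root_.mem_nhds_iff.1 h1
    have hUo : IsOpen (U ∩ Ψ ⁻¹' V) := hΨ.continuousOn.isOpen_inter_preimage hU hV
    have hU0 : (fun k => chart i (Phi x0) (J k)) ∈ U ∩ Ψ ⁻¹' V := by
      rw [hξ0]
      refine ⟨hxU, ?_⟩
      rw [mem_preimage, hΨ0]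
      exact hV0
    have hcξ : ContinuousAt (fun (M : Mat (n + 1)) k => chart i M (J k)) (Phi x0) := by
      rw [continuousAt_pi]
      intro k
      exact (continuous_apply (J k)).continuousAt.comp (continuousAt_chart hi)
    have h2 : ∀ᶠ M : Mat (n + 1) in 𝓝 (Phi x0), (M i i ≠ 0 ∧ chart i M ∈ V) ∧
        (fun k => chart i M (J k)) ∈ U ∩ Ψ ⁻¹' V ∧
        (x0 i • chart i M ∈ Cone F → x0 i • chart i M =
          (x0 i • chart i M) i • Ψ (fun k => (x0 i • chart i M) (J k) / (x0 i • chart i M) i)) := by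
      refine (((continuous_apply_apply i i).continuousAt.eventually_ne hi).and
        ((continuousAt_chart hi).eventually (hV.mem_nhds hV0))).and
        ((hcξ.eventually (hUo.mem_nhds hU0)).and ?_)
      have h3 : Tendsto (fun M : Mat (n + 1) => x0 i • chart i M) (𝓝 (Phi x0)) (𝓝 x0) := by
        have h4 := (continuousAt_chart hi).tendsto.const_smul (x0 i)
        rwa [hch, smul_smul, mul_inv_cancel₀ hxi, one_smul] at h4
      exact h3.eventually hev
    obtain ⟨O, hOs, hO, hMO⟩ := _root_.mem_nhds_iff.1 h2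
    have hΨ' : AnalyticOnNhd ℂ Ψ (U ∩ Ψ ⁻¹' V) := hΨ.mono inter_subset_left
    refine ⟨i, d, J, O, U ∩ Ψ ⁻¹' V, Ψ, fun z => w (Ψ z), hO, hMO, hUo, hΨ', fun z hz => ?_,
      fun q => hη.hol q _ Ψ hUo hΨ' fun z hz => (hΨX z hz.1).1, fun z hz v u hli => ?_,
      fun M hM => ?_⟩
    · exact AnalyticAt.fun_comp (g := w) (hVs hz.2).1 (hΨ z hz.1)
    · apply hη.pos _ Ψ hUo hΨ' (fun z hz => (hΨX z hz.1).1) z hz v u
      have hd1 := (hΨ z hz.1).differentiableAt.hasFDerivAt
      have hdi : ∀ v, fderiv ℂ Ψ z v i = 0 := by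
        intro v
        have h3 : HasFDerivAt (fun z => Ψ z i) ((ContinuousLinearMap.proj (R := ℂ)
          (φ := fun _ : Fin (n + 1) => ℂ) i).comp (fderiv ℂ Ψ z)) z :=
          (ContinuousLinearMap.proj (R := ℂ) (φ := fun _ : Fin (n + 1) => ℂ) i).hasFDerivAt.comp z
            hd1
        have h4 : HasFDerivAt (fun z => Ψ z i) (0 : (Fin d → ℂ) →L[ℂ] ℂ) z :=
          (hasFDerivAt_const (1 : ℂ) z).congr_of_eventuallyEq (by
            filter_upwards [hU.mem_nhds hz.1] with z' hz'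
            exact (hΨX z' hz').2.1)
        have h5 := DFunLike.congr_fun (h3.unique h4) v
        exact h5
      have hdJ : ∀ v k, fderiv ℂ Ψ z v (J k) = v k := by
        intro v k
        have h3 : HasFDerivAt (fun z => Ψ z (J k)) ((ContinuousLinearMap.proj (R := ℂ)
          (φ := fun _ : Fin (n + 1) => ℂ) (J k)).comp (fderiv ℂ Ψ z)) z :=
          (ContinuousLinearMap.proj (R := ℂ) (φ := fun _ : Fin (n + 1) => ℂ)
            (J k)).hasFDerivAt.comp z hd1
        have h4 : HasFDerivAt (fun z => Ψ z (J k)) (ContinuousLinearMap.proj (R := ℂ)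
          (φ := fun _ : Fin d => ℂ) k) z :=
          ((ContinuousLinearMap.proj (R := ℂ)
            (φ := fun _ : Fin d => ℂ) k).hasFDerivAt).congr_of_eventuallyEq (by
            filter_upwards [hU.mem_nhds hz.1] with z' hz'
            exact (hΨX z' hz').2.2 k)
        have h5 := DFunLike.congr_fun (h3.unique h4) v
        exact h5
      rw [LinearIndependent.pair_iff] at hli
      rw [Fintype.linearIndependent_iff]
      intro g hg
      rw [Fin.sum_univ_three] at hg
      change g 0 • Ψ z + g 1 • fderiv ℂ Ψ z v + g 2 • fderiv ℂ Ψ z u = 0 at hg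
      have e0 : g 0 = 0 := by
        have h3 := congrFun hg i
        simp only [Pi.add_apply, Pi.smul_apply, smul_eq_mul, hdi, (hΨX z hz.1).2.1, mul_zero,
          add_zero, mul_one, Pi.zero_apply] at h3
        exact h3
      have e1 : g 1 • v + g 2 • u = 0 := by
        funext k
        have h3 := congrFun hg (J k)
        simp only [Pi.add_apply, Pi.smul_apply, smul_eq_mul, hdJ, e0, zero_mul, zero_add,
          Pi.zero_apply] at h3 ⊢
        exact h3
      obtain ⟨e2, e3⟩ := hli _ _ e1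
      intro k
      fin_cases k
      · exact e0
      · exact e2
      · exact e3
    · obtain ⟨⟨e1, e2⟩, e3, e4⟩ := hOs hM
      refine ⟨e1, e3, fun hMT => ?_⟩
      have hcone := chart_cone hX hMT e1
      have h5 := e4 (cone_smul hX hcone hxi)
      have h6 : chart i M = Ψ (fun k => chart i M (J k)) := by
        have h7 : (fun k => (x0 i • chart i M) (J k) / (x0 i • chart i M) i) =
            fun k => chart i M (J k) := by
          funext k
          rw [Pi.smul_apply, Pi.smul_apply, smul_eq_mul, smul_eq_mul, PM.chart_self e1, mul_one,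
            mul_div_cancel_left₀ _ hxi]
        rw [h7, Pi.smul_apply, smul_eq_mul, PM.chart_self e1, mul_one] at h5
        exact smul_right_injective _ hxi h5
      refine ⟨h6, ?_⟩
      rw [mem_La_iff, aM_chart hX hα hMT e1]
      change α (chart i M) = Submodule.Quotient.mk (w (Ψ fun k => chart i M (J k)))
      rw [← h6]
      exact (hVs e2).2 hcone


theorem aM_rep (hX : SmoothVariety F d y) (hα : HolToTorus (Cone F) L α) {M : Mat (n + 1)}
    (hM : M ∈ TX y) :
    (Submodule.Quotient.mk (aM L α F M) : (Fin m → ℂ) ⧸ L) = α (toProj M).rep := by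
  have h1 := aM_Phi hα (rep_toProj hX hM)
  rwa [Phi_rep_toProj (TX_PM hM)] at h1

theorem fib_of (hX : SmoothVariety F d y) (hα : HolToTorus (Cone F) L α)
    (hfib : HyperbolicFibres F α) : Fib (TX y) (La L) (aM L α F) := by
  intro P c hP hPT ho z
  have h1 := hfib (fun z => toProj (P z)) ⟨holMap_of hP, fun z => rep_toProj hX (hPT z)⟩ (by
    intro z w
    rw [← aM_rep hX hα (hPT z), ← aM_rep hX hα (hPT w)]
    rw [← mem_La_iff.1 (ho z), ← mem_La_iff.1 (ho w)]) z 0
  have h2 := congrArg (fun p : ℙ ℂ (Fin (n + 1) → ℂ) => Phi p.rep) h1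
  change Phi (toProj (P z)).rep = Phi (toProj (P 0)).rep at h2
  rwa [Phi_rep_toProj (TX_PM (hPT z)), Phi_rep_toProj (TX_PM (hPT 0))] at h2

end Pool.Agent.N154.TT
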