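import Pool.Agent.N154.TT.Geo
import Pool.Agent.N154.DD.KGeo

/-! Projective manifolds over complex tori: maps from elliptic curves and hyperbolicity. -/

set_option autoImplicit false

open Filter Topology Metric Set LinearAlgebra.Projectivization

namespace Pool.Agent.N154.TT

open FF Pool.Agent.Y190.OP Pool.Agent.W602.GT
open Pool.Agent.N155 (TX isCompact_TX TX_PM exists_shift)
open Pool.Agent.N154.GG (SmoothVariety PositiveTwoForms HyperbolicFibres HolIn HolMap toProj
  Phi_rep_toProj proj_ext holMap_of holP_of mem_TX rep_toProj kobayashi projDist chain_trunc)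

variable {n m : ℕ} {ι : Type} {F : ι → MvPolynomial (Fin (n + 1)) ℂ} {d : ℕ} {K : Type} [Field K]
  [Algebra ℂ K] {y : Fin (n + 1) → K} {L : Submodule ℤ (Fin m → ℂ)}
  {α : (Fin (n + 1) → ℂ) → (Fin m → ℂ) ⧸ L}
  {κ : Type} {η : κ → (Fin (n + 1) → ℂ) → (Fin (n + 1) → ℂ) → (Fin (n + 1) → ℂ) → ℂ}

/-- periods -/
theorem pair_periods {X : Type*} {f : ℂ → X} {p q : ℂ} (hind : LinearIndependent ℝ ![p, q])
    (hp : ∀ z, f (z + p) = f z) (hq : ∀ z, f (z + q) = f z) :
    ∃ L : PeriodPair, ∀ l ∈ L.lattice, ∀ z, f (z + l) = f z := by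
  refine ⟨⟨p, q, hind⟩, fun l hl z => ?_⟩
  have hn : ∀ {p : ℂ}, (∀ z, f (z + p) = f z) → ∀ (k : ℕ) (z : ℂ), f (z + k * p) = f z := by
    intro p hp k
    induction k with
    | zero => intro z; simp
    | succ k ih =>
      intro z
      have e : z + ((k + 1 : ℕ) : ℂ) * p = z + k * p + p := by
        push_cast
        ring
      rw [e, hp, ih]
  have hi : ∀ {p : ℂ}, (∀ z, f (z + p) = f z) → ∀ (k : ℤ) (z : ℂ), f (z + k * p) = f z := by
    intro p hp k z
    obtain ⟨j, rfl | rfl⟩ := k.eq_nat_or_neg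
    · have := hn hp j z
      simpa using this
    · have := hn hp j (z + ((-(j : ℤ) : ℤ) : ℂ) * p)
      rw [← this]
      congr 1
      push_cast
      ring
  obtain ⟨i, j, rfl⟩ := PeriodPair.mem_lattice.1 hl
  rw [← add_assoc]
  have h1 := hi hq j (z + i * p)
  have h2 := hi hp i z
  exact h1.trans h2

/-- Lipschitz curves have bounded derivatives -/
theorem bounded_of_lip {P : ℂ → Mat (n + 1)} {K : ℝ} (hL : ∀ z w, ‖P z - P w‖ ≤ K * ‖z - w‖)
    (z : ℂ) : ‖fderiv ℝ P z‖ ≤ K := by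
  have hK : 0 ≤ K := by
    have := hL 1 0
    rw [sub_zero, norm_one, mul_one] at this
    exact (norm_nonneg _).trans this
  have h1 : LipschitzWith ⟨K, hK⟩ P := LipschitzWith.of_dist_le_mul fun z w => by
    rw [dist_eq_norm, dist_eq_norm]
    exact hL z w
  exact norm_fderiv_le_of_lipschitz ℝ h1

/-- **Projective manifolds over complex tori** -/
theorem lang_geo [DiscreteTopology L] [IsZLattice ℝ L] (hX : SmoothVariety F d y)
    (hη : PositiveTwoForms (Cone F) d η) (hα : HolToTorus (Cone F) L α)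
    (hfib : HyperbolicFibres F α) :
    (∀ f, HolIn F f → (∃ B : ℝ, ∀ z w, projDist (f z) (f w) ≤ B * ‖z - w‖) →
      ∃ L : PeriodPair, ∀ l ∈ L.lattice, ∀ z, f (z + l) = f z) ∧
    ((∀ (L : PeriodPair) (f : ℂ → ℙ ℂ (Fin (n + 1) → ℂ)), HolIn F f →
      (∀ l ∈ L.lattice, ∀ z, f (z + l) = f z) → ∀ z w, f z = f w) →
      ∃ c : ℝ, 0 < c ∧ ∀ p q : ℙ ℂ (Fin (n + 1) → ℂ), p.rep ∈ Cone F → q.rep ∈ Cone F →
        ENNReal.ofReal (c * projDist p q) ≤ kobayashi (Cone F) p q) := by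
  have hT := td_of hX hα
  have hf := fib_of hX hα hfib
  have hG := gd_of hX hα hη
  obtain ⟨C, hC0, hC⟩ := gradient_l hT hf
  have hper : ∀ (P : ℂ → Mat (n + 1)) (B : ℝ), HolP univ P → (∀ z, P z ∈ TX y) →
      (∀ z, ‖fderiv ℝ P z‖ ≤ B) → ∃ L : PeriodPair, ∀ l ∈ L.lattice, ∀ z, P (z + l) = P z := by
    intro P B hP hPT hB
    by_cases hne : ∀ z, P z = P 0
    · refine ⟨⟨1, Complex.I, ?_⟩, fun l _ z => by rw [hne, hne z]⟩
      exact det_indep (x := 1) (y := 1) one_ne_zero one_ne_zero (by simp) (by simp)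
    · obtain ⟨α', β', hL⟩ := lin_of_bounded hT hP hPT hB
      obtain ⟨p, q, hind, hp, hq⟩ := hL.periods hT hG hC0 hC (hL.ne hf hne)
      exact pair_periods hind hp hq
  refine ⟨fun f hf' ⟨B, hB⟩ => ?_, fun hno => ?_⟩
  · obtain ⟨L', hL'⟩ := hper (fun z => Phi (f z).rep) B (holP_of hf'.1)
      (fun z => mem_TX hX (hf'.2 z)) (bounded_of_lip hB)
    exact ⟨L', fun l hl z => proj_ext (hL' l hl z)⟩
  · obtain ⟨C1, hC1, hbro⟩ := brody (T := TX y) isCompact_TX TX_PM (by
      intro P hP hPT hB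
      obtain ⟨L', hL'⟩ := hper P 2 hP hPT hB
      have h1 := hno L' (fun z => toProj (P z)) ⟨holMap_of hP, fun z => rep_toProj hX (hPT z)⟩
        (fun l hl z => by
          rw [hL' l hl z])
      intro z
      have h2 := congrArg (fun p : ℙ ℂ (Fin (n + 1) → ℂ) => Phi p.rep) (h1 z 0)
      change Phi (toProj (P z)).rep = Phi (toProj (P 0)).rep at h2
      rwa [Phi_rep_toProj (TX_PM (hPT z)), Phi_rep_toProj (TX_PM (hPT 0))] at h2)
    obtain ⟨C2, hC2, hdisc⟩ := disc_trunc_gen (T := TX y) (Ξ := ∅) (ε := 1) one_pos hC1 (by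
      intro P hP hPT D hD0 hD1 _
      rw [Real.rpow_one]
      exact (mul_le_of_le_one_right (norm_nonneg _) hD1).trans (hbro P hP hPT))
    refine ⟨(4 * C2)⁻¹, by positivity, fun p q hp hq => ?_⟩
    unfold kobayashi
    refine le_iInf₂ fun c hc => ENNReal.ofReal_le_ofReal ?_
    have h1 := chain_trunc hX (M0 := Phi p.rep) (ρ := 1 / 2) (A := C2) hC2.le (by
      intro P hP hPT s hs t ht
      have := hdisc 1 one_pos le_rfl (Phi p.rep) (fun M hM => absurd hM (notMem_empty _))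
        P hP hPT s hs t ht
      rwa [Real.rpow_one, div_one] at this) hc
    have h2 : dist (min ‖Phi q.rep - Phi p.rep‖ (1 / 2)) (min ‖Phi p.rep - Phi p.rep‖ (1 / 2)) =
        min ‖Phi q.rep - Phi p.rep‖ (1 / 2) := by
      rw [sub_self, norm_zero, min_eq_left (show (0 : ℝ) ≤ 1 / 2 by norm_num), Real.dist_eq,
        sub_zero, abs_of_nonneg (by positivity)]
    rw [h2] at h1
    have h3 : ‖Phi q.rep - Phi p.rep‖ ≤ 2 := by
      have := (norm_sub_le (Phi q.rep) (Phi p.rep)).trans (add_le_add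
        (Pool.Agent.N154.GG.norm_phi_le (TX_PM (mem_TX hX hq)))
        (Pool.Agent.N154.GG.norm_phi_le (TX_PM (mem_TX hX hp))))
      linarith
    have h4 : projDist p q / 4 ≤ min ‖Phi q.rep - Phi p.rep‖ (1 / 2) := by
      have e1 : projDist p q = ‖Phi q.rep - Phi p.rep‖ := norm_sub_rev _ _
      rw [e1]
      have e2 := norm_nonneg (Phi q.rep - Phi p.rep)
      apply le_min <;> linarith
    calc (4 * C2)⁻¹ * projDist p q = C2⁻¹ * (projDist p q / 4) := by
          rw [mul_inv]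
          ring
      _ ≤ C2⁻¹ * (C2 * c) := mul_le_mul_of_nonneg_left (h4.trans h1) (by positivity)
      _ = c := by
          rw [← mul_assoc, inv_mul_cancel₀ hC2.ne', one_mul]

end Pool.Agent.N154.TT
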