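import Pool.Agent.N154.TT.Defs

/-!
Riemann forms on complex tori.
-/

set_option autoImplicit false

namespace Pool.Agent.N154.TT

variable {m : ℕ}

/-- `H` is a Riemann form on the complex torus `ℂᵐ / Λ`: a positive definite Hermitian form whose
imaginary part is integral on `Λ`. A complex torus is an abelian variety if and only if it has a
Riemann form. -/
structure RiemannForm (Λ : Submodule ℤ (Fin m → ℂ)) (H : (Fin m → ℂ) → (Fin m → ℂ) → ℂ) : Prop where
  add : ∀ x y z, H (x + y) z = H x z + H y z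
  smul : ∀ (c : ℂ) (x y : Fin m → ℂ), H (c • x) y = c * H x y
  symm : ∀ x y, H y x = (starRingEnd ℂ) (H x y)
  pos : ∀ x, x ≠ 0 → 0 < (H x x).re
  int : ∀ x ∈ Λ, ∀ y ∈ Λ, ∃ k : ℤ, (H x y).im = k

end Pool.Agent.N154.TT
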