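import Pool.Agent.N154.TT.Main2

/-! The contraction principle for discs, for abelian varieties. -/

set_option autoImplicit false

open Filter Topology Metric Set

namespace Pool.Agent.N154.TT

open Pool.Agent.Y190.OP Pool.Agent.N155
open Pool.Agent.N154.GG (holP_comp hp_cont UU uu_ge qk doubling prod_dist_le norm_phi_le)

variable {N m : ℕ} {T : Set (Mat N)} {Λ : AddSubgroup (Fin m → ℂ)} {a : Mat N → Fin m → ℂ}
  {κ : Type} {η : κ → (Fin N → ℂ) → (Fin N → ℂ) → (Fin N → ℂ) → ℂ}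
  {r : ℕ} {v β : Fin r → Fin m → ℂ} {ℓ : Fin r → ((Fin m → ℂ) →L[ℂ] ℂ)}
  {e : Fin r → ℂ → Mat N}

/-- the product of the distances -/
noncomputable def Pr (ℓ : Fin r → ((Fin m → ℂ) →L[ℂ] ℂ)) (e : Fin r → ℂ → Mat N) (P : ℂ → Mat N)
    (φ : ℂ → Fin m → ℂ) (z : ℂ) : ℝ := ∏ j, ‖P z - FF ℓ e j (φ z)‖

theorem Pr_nonneg (P : ℂ → Mat N) (φ : ℂ → Fin m → ℂ) (z : ℂ) :
    0 ≤ Pr ℓ e P φ z := Finset.prod_nonneg fun _ _ => norm_nonneg _

theorem Pr_le (hT : TV T Λ a) (hE : En T Λ a v β ℓ e) {P : ℂ → Mat N} {φ : ℂ → Fin m → ℂ} {z : ℂ}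
    (hP : P z ∈ T) : Pr ℓ e P φ z ≤ 2 ^ r :=
  prod_dist_le (hT.sub hP) fun j => hT.sub ((hE.lin j).mem _)

theorem Pr_shift (hE : En T Λ a v β ℓ e) {P : ℂ → Mat N} {φ ψ : ℂ → Fin m → ℂ} {z w : ℂ}
    {Q : ℂ → Mat N} (hPQ : P z = Q w) (hl : ψ w - φ z ∈ Λ) : Pr ℓ e P φ z = Pr ℓ e Q ψ w := by
  obtain ⟨σ, hσ⟩ := hE.perm _ hl
  unfold Pr
  rw [← Equiv.prod_comp σ (fun j => ‖P z - FF ℓ e j (φ z)‖)]
  refine Finset.prod_congr rfl fun j _ => ?_
  rw [(hσ j).2, hPQ]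
  congr 3
  abel

/-- **Contraction principle** -/
theorem contraction (hT : TV T Λ a) (hf : Fib T Λ a) (hG : GV T Λ a η) (hE : En T Λ a v β ℓ e) :
    ∃ k0 : ℕ, ∀ k : ℕ, k0 ≤ k → ∀ (P : ℂ → Mat N) (φ : ℂ → Fin m → ℂ) (z0 : ℂ) (ρ : ℝ) (b : ℂ),
      Dsc T Λ a z0 ρ P φ → (k : ℝ) + 1 ≤ ρ * sv φ z0 →
      ∃ w, ‖w - z0‖ * sv φ z0 ≤ k ∧ 2 * (sv φ z0 ^ qk k * Pr ℓ e P φ z0) ≤
        sv φ w ^ qk k * Pr ℓ e P φ w * ‖Complex.exp (b * (w - z0))‖ := by
  by_contra hcon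
  push Not at hcon
  choose nn hnn P φ z0 ρ b hD hρ hw using hcon
  obtain ⟨C0, hC00, hC0'⟩ := gradient_l hT hf
  obtain ⟨C, hC0, hC, hF⟩ := exists_GF (ℓ := ℓ) hE.lin hC00 hC0'
  have hspos : ∀ k, 0 < sv (φ k) (z0 k) := by
    intro k
    rcases (sv_nn (φ k) (z0 k)).eq_or_lt with h0 | h0
    · have h1 := hρ k
      rw [← h0, mul_zero] at h1
      have : (0 : ℝ) ≤ nn k := Nat.cast_nonneg _
      linarith
    · exact h0
  have hPpos : ∀ k, 0 < Pr ℓ e (P k) (φ k) (z0 k) := by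
    intro k
    have h1 := hw k (z0 k) (by rw [sub_self, norm_zero, zero_mul]; exact Nat.cast_nonneg _)
    rw [sub_self, mul_zero, Complex.exp_zero, norm_one, mul_one] at h1
    have h2 : 0 < sv (φ k) (z0 k) ^ qk (nn k) * Pr ℓ e (P k) (φ k) (z0 k) := by linarith
    exact pos_of_mul_pos_right h2 (pow_pos (hspos k) _).le
  choose l hlΛ hl using fun k => hT.coc.choose_spec (φ k (z0 k))
  set c : ℕ → ℝ := fun k => (sv (φ k) (z0 k))⁻¹ with hc
  have hc0 : ∀ k, 0 < c k := fun k => inv_pos.2 (hspos k)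
  have hcn : ∀ k, ‖((c k : ℝ) : ℂ)‖ = c k := fun k => by
    rw [Complex.norm_real, Real.norm_of_nonneg (hc0 k).le]
  have hcs : ∀ k, c k * sv (φ k) (z0 k) = 1 := fun k => inv_mul_cancel₀ (hspos k).ne'
  set φ' : ℕ → ℂ → Fin m → ℂ := fun k t => φ k (z0 k + (c k : ℂ) * t) - l k with hφ'
  set h' : ℕ → ℂ → Mat N := fun k t => P k (z0 k + (c k : ℂ) * t) with hh'
  have hsg : ∀ k t, sv (φ' k) t = c k * sv (φ k) (z0 k + (c k : ℂ) * t) := by
    intro k t
    rw [hφ']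
    simp only
    rw [sv_comp_l (φ k) (z0 k) (c k : ℂ) (l k) t, hcn]
  have hprod : ∀ k t, ∏ j, ‖h' k t - FF ℓ e j (φ' k t)‖ =
      Pr ℓ e (P k) (φ k) (z0 k + (c k : ℂ) * t) := by
    intro k t
    refine Pr_shift hE (P := h' k) (φ := φ' k) (z := t) (Q := P k) (ψ := φ k) rfl ?_
    have : φ k (z0 k + (c k : ℂ) * t) - φ' k t = l k := sub_sub_cancel _ _
    rw [this]
    exact hlΛ k
  have hSQ : SQv T Λ a ℓ e hT.coc.choose nn (fun k => b k * (c k : ℂ)) h' φ' := by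
    refine ⟨hnn, fun k => ?_, fun k => ?_, fun k => ?_, fun k => ?_, fun k t ht => ?_⟩
    · refine (hD k).affine (z0 k) (hc0 k) ?_ (hlΛ k)
      rw [sub_self, norm_zero, zero_add]
      have h1 : (k : ℝ) + 1 ≤ ρ k * sv (φ k) (z0 k) := by
        have h2 : (k : ℝ) ≤ nn k := by exact_mod_cast hnn k
        linarith [hρ k]
      calc c k * ((k : ℝ) + 1) ≤ c k * (ρ k * sv (φ k) (z0 k)) :=
            mul_le_mul_of_nonneg_left h1 (hc0 k).le
        _ = ρ k * (c k * sv (φ k) (z0 k)) := by ring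
        _ = ρ k := by rw [hcs, mul_one]
    · have : φ' k 0 = φ k (z0 k) - l k := by
        rw [hφ']
        simp
      rw [this]
      exact hl k
    · rw [hsg, mul_zero, add_zero, hcs]
    · rw [hprod, mul_zero, add_zero]
      exact hPpos k
    · rw [hprod, hprod, hsg, mul_zero, add_zero]
      set w := z0 k + (c k : ℂ) * t with hwdef
      have h2 : (k : ℝ) ≤ nn k := by exact_mod_cast hnn k
      have e1 := hw k w (by
        rw [hwdef, add_sub_cancel_left, norm_mul, hcn]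
        calc c k * ‖t‖ * sv (φ k) (z0 k) = ‖t‖ * (c k * sv (φ k) (z0 k)) := by ring
          _ = ‖t‖ := by rw [hcs, mul_one]
          _ ≤ nn k := ht.trans h2)
      have e2 : b k * (w - z0 k) = b k * (c k : ℂ) * t := by
        rw [hwdef]
        ring
      rw [e2] at e1
      have e3 := mul_le_mul_of_nonneg_left e1.le (pow_nonneg (hc0 k).le (qk (nn k)))
      have e4 : c k ^ qk (nn k) * (2 * (sv (φ k) (z0 k) ^ qk (nn k) *
          Pr ℓ e (P k) (φ k) (z0 k))) = 2 * Pr ℓ e (P k) (φ k) (z0 k) := by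
        have : c k ^ qk (nn k) * sv (φ k) (z0 k) ^ qk (nn k) = 1 := by
          rw [← mul_pow, hcs, one_pow]
        calc _ = 2 * (c k ^ qk (nn k) * sv (φ k) (z0 k) ^ qk (nn k)) *
              Pr ℓ e (P k) (φ k) (z0 k) := by ring
          _ = _ := by rw [this, mul_one]
      rw [e4] at e3
      refine le_trans (le_of_eq ?_) e3
      rw [mul_pow]
      ring
  exact hSQ.false hT hG hE hC0 hC hF

/-- **The main estimate**: in discs of radius `R` -/
theorem main_estimate (hT : TV T Λ a) (hf : Fib T Λ a) (hG : GV T Λ a η)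
    (hE : En T Λ a v β ℓ e) :
    ∃ k0 : ℕ, ∀ k : ℕ, k0 ≤ k → ∃ C : ℝ, 0 < C ∧ ∀ (P : ℂ → Mat N) (φ : ℂ → Fin m → ℂ) (z0 : ℂ)
      (R : ℝ), 0 < R → Dsc T Λ a z0 R P φ →
      sv φ z0 * (Pr ℓ e P φ z0 / 2 ^ r) ^ (((qk k : ℕ) : ℝ)⁻¹) ≤ C / R := by
  classical
  obtain ⟨k0, hk0⟩ := contraction hT hf hG hE
  refine ⟨k0, fun k hk => ?_⟩
  have h2r : (0 : ℝ) < 2 ^ r := by positivity
  have hqpos : qk k ≠ 0 := by
    unfold qk
    positivity
  have hq0 : 0 < ((qk k : ℕ) : ℝ)⁻¹ := by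
    have := Nat.pos_of_ne_zero hqpos
    positivity
  set κ1 : ℝ := (3 / 2 : ℝ) ^ (((qk k : ℕ) : ℝ)⁻¹) with hκ1
  have hκ11 : 1 < κ1 := Real.one_lt_rpow (by norm_num) hq0
  have hκ1p : κ1 ^ qk k = 3 / 2 := Real.rpow_inv_natCast_pow (by norm_num) hqpos
  set C : ℝ := 4 * (k * (κ1 / (κ1 - 1)) + k + 1) with hC
  have hκf : 0 ≤ κ1 / (κ1 - 1) := div_nonneg (by linarith) (by linarith)
  have hkn : (0 : ℝ) ≤ k := Nat.cast_nonneg k
  have hC0 : 0 < C := by positivity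
  refine ⟨C, hC0, fun P φ z0 R hR hD => ?_⟩
  by_contra hcon
  push Not at hcon
  set f0 : ℂ → ℝ := fun z => sv φ z * (Pr ℓ e P φ z / 2 ^ r) ^ (((qk k : ℕ) : ℝ)⁻¹) with hf0
  have hx0 : ∀ z, 0 ≤ Pr ℓ e P φ z / 2 ^ r := fun z => div_nonneg (Pr_nonneg P φ z) h2r.le
  have hfpow : ∀ z, f0 z ^ qk k = sv φ z ^ qk k * (Pr ℓ e P φ z / 2 ^ r) := by
    intro z
    rw [hf0]
    simp only
    rw [mul_pow, Real.rpow_inv_natCast_pow (hx0 z) hqpos]
  have hf0n : ∀ z, 0 ≤ f0 z := fun z => mul_nonneg (sv_nn φ z) (Real.rpow_nonneg (hx0 z) _)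
  have hfs : ∀ z ∈ ball z0 R, f0 z ≤ sv φ z := fun z hz =>
    mul_le_of_le_one_right (sv_nn φ z) (Real.rpow_le_one (hx0 z)
      ((div_le_one h2r).2 (Pr_le hT hE (hD.mem z hz))) hq0.le)
  set f : ℂ → ℝ := fun z => if z ∈ closedBall z0 (R / 2) then f0 z else 0 with hfdef
  have hfin : ∀ z, z ∈ closedBall z0 (R / 2) → f z = f0 z := by
    intro z hz
    rw [hfdef]
    simp only
    rw [if_pos hz]
  have hsub : closedBall z0 (R / 2) ⊆ ball z0 R := closedBall_subset_ball (by linarith)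
  -- local bounds
  have hlocb : ∃ M : ℝ, ∀ z ∈ closedBall z0 (R / 2), sv φ z ≤ M := by
    obtain ⟨B, hB⟩ := (isCompact_closedBall z0 (3 * R / 4)).bddAbove_image
      (hD.dif.continuousOn.mono (closedBall_subset_ball (by linarith))).norm
    refine ⟨max (2 * B) 1 * (1 / (R / 4)) , fun z hz => ?_⟩
    have hB0 : 0 ≤ B := (norm_nonneg _).trans (hB ⟨z0, mem_closedBall_self (by positivity), rfl⟩)
    have hsb : ball z (R / 2) ⊆ ball z0 R := by
      apply ball_subset_ball'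
      rw [mem_closedBall] at hz
      linarith
    apply sv_le (by positivity)
    intro q
    have h1 := cv_le_l (hD.dif.mono hsb) (z := z) (c := φ z) (ρ := R / 4) (C := 2 * B)
      (by positivity) (by linarith) (by
        intro w hw
        have hw1 : w ∈ closedBall z0 (3 * R / 4) := by
          rw [mem_closedBall] at hz ⊢
          rw [mem_sphere] at hw
          have := dist_triangle w z z0
          linarith
        have hz1 : z ∈ closedBall z0 (3 * R / 4) := closedBall_subset_closedBall (by linarith) hz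
        have e1 := hB ⟨w, hw1, rfl⟩
        have e2 := hB ⟨z, hz1, rfl⟩
        have e3 := norm_sub_le (φ w) (φ z)
        simp only at e1 e2
        linarith) q
    rw [mul_pow, div_pow 1, one_pow, mul_one_div]
    refine h1.trans (div_le_div_of_nonneg_right ?_ (by positivity))
    exact (le_max_left _ _).trans (le_self_pow₀ (le_max_right _ _) (Nat.succ_ne_zero q))
  obtain ⟨M, hM⟩ := hlocb
  have hz0c : z0 ∈ closedBall z0 (R / 2) := mem_closedBall_self (by positivity)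
  have hf0pos : 0 < f z0 := by
    rw [hfin z0 hz0c]
    exact lt_of_le_of_lt (by positivity) hcon
  set s : ℂ → ℝ := fun z => if z ∈ closedBall z0 (R / 2) then sv φ z else 0 with hsdef
  obtain ⟨z1, e1, e2, e3⟩ := doubling (f := f) (s := s) (by
      intro z
      by_cases hz : z ∈ closedBall z0 (R / 2)
      · rw [hfin z hz, hsdef]
        simp only
        rw [if_pos hz]
        exact hfs z (hsub hz)
      · rw [hfdef, hsdef]
        simp only
        rw [if_neg hz, if_neg hz]) (by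
      intro z
      refine ⟨univ, univ_mem, max M 0, ?_⟩
      rintro _ ⟨w, -, rfl⟩
      by_cases hw : w ∈ closedBall z0 (R / 2)
      · rw [hfin w hw]
        exact ((hfs w (hsub hw)).trans (hM w hw)).trans (le_max_left _ _)
      · rw [hfdef]
        simp only
        rw [if_neg hw]
        exact le_max_right _ _)
    (κ := κ1) (A := (k : ℝ)) hκ11 hkn (z0 := z0) hf0pos
  have hf1pos : 0 < f z1 := hf0pos.trans_le e1
  have hz1c : z1 ∈ closedBall z0 (R / 2) := by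
    by_contra hc
    rw [hfdef] at hf1pos
    simp only at hf1pos
    rw [if_neg hc] at hf1pos
    exact lt_irrefl _ hf1pos
  have hs1 : s z1 = sv φ z1 := by
    rw [hsdef]
    simp only
    rw [if_pos hz1c]
  have hfz0 : C < R * f z0 := by
    rw [hfin z0 hz0c]
    rw [div_lt_iff₀ hR] at hcon
    linarith
  have hdz : ‖z1 - z0‖ ≤ R / 4 := by
    by_contra hc
    push Not at hc
    have h1 : R / 4 * f z0 < ‖z1 - z0‖ * f z0 := mul_lt_mul_of_pos_right hc hf0pos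
    have h2 : C / 4 < k * (κ1 / (κ1 - 1)) := by linarith
    rw [hC] at h2
    linarith
  have hsgz1 : C ≤ R * sv φ z1 := by
    have h1 : f z0 ≤ sv φ z1 := e1.trans (by
      rw [hfin z1 hz1c]
      exact hfs z1 (hsub hz1c))
    have h2 := mul_le_mul_of_nonneg_left h1 hR.le
    linarith
  have hD1 : Dsc T Λ a z1 (R / 4) P φ := hD.mono (by
    apply ball_subset_ball'
    rw [dist_eq_norm]
    linarith)
  have hkR : (k : ℝ) + 1 ≤ R / 4 * sv φ z1 := by
    have h1 : (k : ℝ) + 1 ≤ C / 4 := by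
      rw [hC]
      have : 0 ≤ (k : ℝ) * (κ1 / (κ1 - 1)) := mul_nonneg hkn hκf
      linarith
    linarith
  obtain ⟨w, hw1, hw2⟩ := hk0 k hk P φ z1 (R / 4) 0 hD1 hkR
  rw [zero_mul, Complex.exp_zero, norm_one, mul_one] at hw2
  have hsg1 : 0 < sv φ z1 := by
    by_contra hc
    push Not at hc
    have : R * sv φ z1 ≤ 0 := mul_nonpos_of_nonneg_of_nonpos hR.le hc
    linarith
  have hwz1 : ‖w - z1‖ ≤ R / 4 := by
    by_contra hc
    push Not at hc
    have h1 : R / 4 * sv φ z1 < ‖w - z1‖ * sv φ z1 := mul_lt_mul_of_pos_right hc hsg1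
    linarith
  have hwc : w ∈ closedBall z0 (R / 2) := by
    rw [mem_closedBall, dist_eq_norm]
    have h1 := norm_add_le (w - z1) (z1 - z0)
    rw [sub_add_sub_cancel] at h1
    linarith
  have h4 := e3 w (by rw [hs1]; exact hw1)
  rw [hfin w hwc, hfin z1 hz1c] at h4
  have h5 := pow_le_pow_left₀ (hf0n w) h4 (qk k)
  rw [mul_pow κ1, hκ1p, hfpow, hfpow] at h5
  have h6 : 0 < f0 z1 ^ qk k := pow_pos (by rw [← hfin z1 hz1c]; exact hf1pos) _
  rw [hfpow] at h6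
  have h7 : 2 * (sv φ z1 ^ qk k * (Pr ℓ e P φ z1 / 2 ^ r)) ≤
      sv φ w ^ qk k * (Pr ℓ e P φ w / 2 ^ r) := by
    have := div_le_div_of_nonneg_right hw2 h2r.le
    calc 2 * (sv φ z1 ^ qk k * (Pr ℓ e P φ z1 / 2 ^ r)) =
          2 * (sv φ z1 ^ qk k * Pr ℓ e P φ z1) / 2 ^ r := by ring
      _ ≤ _ := this
      _ = _ := by ring
  linarith

end Pool.Agent.N154.TT
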