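import Pool.Agent.N154.GG.Defs

/-!
Holomorphic maps of projective varieties to complex tori of any dimension.
-/

set_option autoImplicit false

open Filter Topology

namespace Pool.Agent.N154.TT

variable {n m : ℕ}

/-- `α` is a holomorphic map from the projective set with the cone `X` to the complex torus
`ℂᵐ / Λ`. -/
structure HolToTorus (X : Set (Fin (n + 1) → ℂ)) (Λ : Submodule ℤ (Fin m → ℂ))
    (α : (Fin (n + 1) → ℂ) → (Fin m → ℂ) ⧸ Λ) : Prop where
  homog : ∀ x ∈ X, ∀ c : ℂ, c ≠ 0 → α (c • x) = α x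
  hol : ∀ x ∈ X, ∃ w : (Fin (n + 1) → ℂ) → Fin m → ℂ, AnalyticAt ℂ w x ∧
    ∀ᶠ u in 𝓝 x, u ∈ X → α u = Submodule.Quotient.mk (w u)

end Pool.Agent.N154.TT
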