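import Pool.Agent.N154.TT.Lim
import Pool.Agent.N154.GG.Grad

/-! The gradient estimate on discs. -/

set_option autoImplicit false

open Filter Topology Metric Set

namespace Pool.Agent.N154.TT

open Pool.Agent.Y190.OP Pool.Agent.N155
open Pool.Agent.N154.GG (holP_comp_l exists_limit_loc_l hp_cont aff_eq doubling hyper_ge ball_sub_l)

variable {N m : ℕ} {T : Set (Mat N)} {Λ : AddSubgroup (Fin m → ℂ)} {a : Mat N → Fin m → ℂ}

/-- the fibres are hyperbolic -/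
def Fib (T : Set (Mat N)) (Λ : AddSubgroup (Fin m → ℂ)) (a : Mat N → Fin m → ℂ) : Prop :=
  ∀ (P : ℂ → Mat N) (c : Fin m → ℂ), HolP univ P → (∀ z, P z ∈ T) → Over Λ a P (fun _ => c) →
    ∀ z, P z = P 0

/-- a holomorphic curve in `T` over `φ`, on a disc -/
structure Dsc (T : Set (Mat N)) (Λ : AddSubgroup (Fin m → ℂ)) (a : Mat N → Fin m → ℂ) (z : ℂ)
    (R : ℝ) (P : ℂ → Mat N) (φ : ℂ → Fin m → ℂ) : Prop where
  hol : HolP (ball z R) P
  mem : ∀ w ∈ ball z R, P w ∈ T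
  dif : DifferentiableOn ℂ φ (ball z R)
  ov : OverOn Λ a (ball z R) P φ

theorem Dsc.mono {z w : ℂ} {R ρ : ℝ} {P : ℂ → Mat N} {φ : ℂ → Fin m → ℂ} (h : Dsc T Λ a z R P φ)
    (hs : ball w ρ ⊆ ball z R) : Dsc T Λ a w ρ P φ where
  hol := fun x hx => by
    obtain ⟨V, F, hV, hxV, hd, hF⟩ := h.hol x (hs hx)
    exact ⟨V, F, hV, hxV, hd, hF⟩
  mem := fun x hx => h.mem x (hs hx)
  dif := h.dif.mono hs
  ov := fun x hx => h.ov x (hs hx)

/-- affine changes of variables -/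
theorem Dsc.affine {z : ℂ} {R : ℝ} {P : ℂ → Mat N} {φ : ℂ → Fin m → ℂ} (h : Dsc T Λ a z R P φ)
    (z1 : ℂ) {c : ℝ} (hc : 0 < c) {ρ : ℝ} (hρ : ‖z1 - z‖ + c * ρ ≤ R) {l : Fin m → ℂ} (hl : l ∈ Λ) :
    Dsc T Λ a 0 ρ (fun t => P (z1 + (c : ℂ) * t)) (fun t => φ (z1 + (c : ℂ) * t) - l) := by
  have hmaps : MapsTo (fun t : ℂ => z1 + (c : ℂ) * t) (ball 0 ρ) (ball z R) := by
    intro t ht
    rw [mem_ball_zero_iff] at ht
    rw [mem_ball, dist_eq_norm]
    have h1 : ‖z1 + (c : ℂ) * t - z‖ ≤ ‖z1 - z‖ + c * ‖t‖ := by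
      have := norm_add_le (z1 - z) ((c : ℂ) * t)
      rw [norm_mul, Complex.norm_real, Real.norm_of_nonneg hc.le] at this
      refine le_trans (le_of_eq ?_) this
      congr 1
      ring
    have h2 : c * ‖t‖ < c * ρ := mul_lt_mul_of_pos_left ht hc
    linarith
  have hd : Differentiable ℂ (fun t : ℂ => z1 + (c : ℂ) * t) := by fun_prop
  refine ⟨holP_comp_l h.hol hd.differentiableOn isOpen_ball hmaps, fun w hw => h.mem _ (hmaps hw),
    (h.dif.comp hd.differentiableOn hmaps).sub_const l, fun w hw => ?_⟩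
  have e1 := Λ.sub_mem (h.ov _ (hmaps hw)) hl
  have e2 : φ (z1 + (c : ℂ) * w) - l - a (P (z1 + (c : ℂ) * w)) =
      φ (z1 + (c : ℂ) * w) - a (P (z1 + (c : ℂ) * w)) - l := by ring
  change φ (z1 + (c : ℂ) * w) - l - a (P (z1 + (c : ℂ) * w)) ∈ Λ
  rw [e2]
  exact e1

/-- **Gradient estimate** -/
theorem gradient_l (h : TV T Λ a) (hf : Fib T Λ a) : ∃ C : ℝ, 0 < C ∧ ∀ (P : ℂ → Mat N)
    (φ : ℂ → Fin m → ℂ) (z : ℂ) (R : ℝ), 0 < R → Dsc T Λ a z R P φ →
    ‖fderiv ℝ P z‖ ≤ C * max (sv φ z) (1 / R) := by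
  classical
  by_contra hcon
  push Not at hcon
  have hcon' : ∀ n : ℕ, ∃ (P : ℂ → Mat N) (φ : ℂ → Fin m → ℂ) (z : ℂ) (R : ℝ), 0 < R ∧
      Dsc T Λ a z R P φ ∧ ((n : ℝ) + 1) * max (sv φ z) (1 / R) < ‖fderiv ℝ P z‖ := by
    intro n
    obtain ⟨P, φ, z, R, h1, h2, h3⟩ := hcon ((n : ℝ) + 1) (by positivity)
    exact ⟨P, φ, z, R, h1, h2, h3⟩
  choose P φ z0 R hR hD hz0 using hcon'
  set σ : ℕ → ℝ := fun n => max (sv (φ n) (z0 n)) (1 / R n) with hσ
  have hσpos : ∀ n, 0 < σ n := fun n => lt_of_lt_of_le (by have := hR n; positivity)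
    (le_max_right _ _)
  have hσR : ∀ n, 1 ≤ R n * σ n := by
    intro n
    have h1 : 1 / R n ≤ σ n := le_max_right _ _
    have h2 := mul_le_mul_of_nonneg_left h1 (hR n).le
    rwa [mul_one_div, div_self (hR n).ne'] at h2
  set mm : ℕ → ℝ := fun n => ‖fderiv ℝ (P n) (z0 n)‖ with hm
  have hmσ : ∀ n : ℕ, ((n : ℝ) + 1) * σ n < mm n := hz0
  have hpos : ∀ n, 0 < mm n := fun n => (mul_pos (by positivity) (hσpos n)).trans (hmσ n)
  have hmR : ∀ n : ℕ, ((n : ℝ) + 1) < mm n * R n := by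
    intro n
    have h1 := mul_lt_mul_of_pos_right (hmσ n) (hR n)
    have h2 : ((n : ℝ) + 1) * 1 ≤ ((n : ℝ) + 1) * (R n * σ n) :=
      mul_le_mul_of_nonneg_left (hσR n) (by positivity)
    linarith
  set f : ℕ → ℂ → ℝ := fun n z => if z ∈ closedBall (z0 n) (R n / 2) then ‖fderiv ℝ (P n) z‖ else 0
    with hfdef
  have hfin : ∀ n z, z ∈ closedBall (z0 n) (R n / 2) → f n z = ‖fderiv ℝ (P n) z‖ := by
    intro n z hz
    rw [hfdef]
    simp only
    rw [if_pos hz]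
  have hf0 : ∀ n, f n (z0 n) = mm n := fun n =>
    hfin n _ (mem_closedBall_self (by have := hR n; positivity))
  have hdb : ∀ n : ℕ, ∃ z, mm n ≤ f n z ∧
      ‖z - z0 n‖ * mm n ≤ ((n : ℝ) + 1) / 12 * 2 ∧
      ∀ w, ‖w - z‖ * f n z ≤ ((n : ℝ) + 1) / 12 → f n w ≤ 2 * f n z := by
    intro n
    have hcont : ContinuousOn (fun z => ‖fderiv ℝ (P n) z‖) (closedBall (z0 n) (R n / 2)) := by
      intro z hz
      refine ContinuousAt.continuousWithinAt ?_
      exact ((hD n).hol.continuousAt_fderiv (closedBall_subset_ball (by linarith [hR n]) hz)).norm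
    obtain ⟨M, hM⟩ := (isCompact_closedBall (z0 n) (R n / 2)).bddAbove_image hcont
    obtain ⟨z, e1, e2, e3⟩ := doubling (f := f n) (s := f n) (fun _ => le_rfl) (by
        intro z
        refine ⟨univ, univ_mem, max M 0, ?_⟩
        rintro _ ⟨w, -, rfl⟩
        by_cases hw : w ∈ closedBall (z0 n) (R n / 2)
        · rw [hfin n w hw]
          exact (hM ⟨w, hw, rfl⟩).trans (le_max_left _ _)
        · rw [hfdef]
          simp only
          rw [if_neg hw]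
          exact le_max_right _ _)
      (κ := 2) (A := ((n : ℝ) + 1) / 12) (z0 := z0 n) (by norm_num) (by positivity)
      (by rw [hf0]; exact hpos n)
    rw [hf0] at e1 e2
    refine ⟨z, e1, ?_, e3⟩
    norm_num at e2 ⊢
    exact e2
  choose z1 h1 h2 h3 using hdb
  set μ : ℕ → ℝ := fun n => f n (z1 n) with hμ
  have hμpos : ∀ n, 0 < μ n := fun n => (hpos n).trans_le (h1 n)
  have hz1in : ∀ n, z1 n ∈ closedBall (z0 n) (R n / 2) := by
    intro n
    by_contra hcon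
    have h4 := hμpos n
    rw [hμ] at h4
    simp only at h4
    rw [hfdef] at h4
    simp only at h4
    rw [if_neg hcon] at h4
    exact lt_irrefl _ h4
  have hμeq : ∀ n, μ n = ‖fderiv ℝ (P n) (z1 n)‖ := fun n => hfin n _ (hz1in n)
  choose l hlΛ hl using fun n => h.coc.choose_spec (φ n (z1 n))
  set H : ℕ → ℂ → Mat N := fun n t => P n (z1 n + (((μ n)⁻¹ : ℝ) : ℂ) * t) with hH
  set Φ : ℕ → ℂ → Fin m → ℂ := fun n t => φ n (z1 n + (((μ n)⁻¹ : ℝ) : ℂ) * t) - l n with hΦ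
  have hz10 : ∀ n : ℕ, ‖z1 n - z0 n‖ * mm n ≤ ((n : ℝ) + 1) / 6 := by
    intro n
    have := h2 n
    linarith
  have hbig : ∀ n : ℕ, ∀ w, ‖w - z1 n‖ * μ n ≤ ((n : ℝ) + 1) / 12 →
      ‖w - z0 n‖ * mm n ≤ ((n : ℝ) + 1) / 4 := by
    intro n w hw
    have e2 : ‖w - z0 n‖ ≤ ‖w - z1 n‖ + ‖z1 n - z0 n‖ := by
      have := norm_add_le (w - z1 n) (z1 n - z0 n)
      rwa [sub_add_sub_cancel] at this
    have e3 : ‖w - z1 n‖ * mm n ≤ ((n : ℝ) + 1) / 12 :=
      (mul_le_mul_of_nonneg_left (h1 n) (norm_nonneg _)).trans hw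
    have e4 := mul_le_mul_of_nonneg_right e2 (hpos n).le
    have e5 := hz10 n
    rw [add_mul] at e4
    linarith
  have hin : ∀ n : ℕ, ∀ w, ‖w - z1 n‖ * μ n ≤ ((n : ℝ) + 1) / 12 → ‖w - z0 n‖ ≤ R n / 4 := by
    intro n w hw
    have e1 := hbig n w hw
    have e2 := hmR n
    by_contra hcon
    push Not at hcon
    have e3 : R n / 4 * mm n < ‖w - z0 n‖ * mm n := mul_lt_mul_of_pos_right hcon (hpos n)
    linarith
  have hDH : ∀ n : ℕ, Dsc T Λ a 0 (((n : ℝ) + 1) / 12) (H n) (Φ n) := by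
    intro n
    have hc := inv_pos.2 (hμpos n)
    refine (hD n).affine (z1 n) hc ?_ (hlΛ n)
    have e1 := hin n (z1 n + (((μ n)⁻¹ * (((n : ℝ) + 1) / 12) : ℝ) : ℂ)) (by
      rw [add_sub_cancel_left, Complex.norm_real, Real.norm_of_nonneg (by positivity)]
      have := (hμpos n).ne'
      field_simp
      exact le_rfl)
    have e2 := hin n (z1 n) (by
      rw [sub_self, norm_zero, zero_mul]
      positivity)
    have e3 : (μ n)⁻¹ * (((n : ℝ) + 1) / 12) ≤ R n / 2 := by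
      have e4 : ‖(((μ n)⁻¹ * (((n : ℝ) + 1) / 12) : ℝ) : ℂ)‖ = (μ n)⁻¹ * (((n : ℝ) + 1) / 12) := by
        rw [Complex.norm_real, Real.norm_of_nonneg (by positivity)]
      have e5 := norm_sub_le (z1 n + (((μ n)⁻¹ * (((n : ℝ) + 1) / 12) : ℝ) : ℂ) - z0 n)
        (z1 n - z0 n)
      have e6 : z1 n + (((μ n)⁻¹ * (((n : ℝ) + 1) / 12) : ℝ) : ℂ) - z0 n - (z1 n - z0 n) =
          (((μ n)⁻¹ * (((n : ℝ) + 1) / 12) : ℝ) : ℂ) := by ring
      rw [e6, e4] at e5
      linarith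
    linarith [hR n]
  have haff : ∀ n t, aff (z1 n) (μ n)⁻¹ t = z1 n + (((μ n)⁻¹ : ℝ) : ℂ) * t := fun n t => aff_eq _ _ _
  have hdist : ∀ n t, ‖z1 n + (((μ n)⁻¹ : ℝ) : ℂ) * t - z1 n‖ * μ n = ‖t‖ := by
    intro n t
    rw [add_sub_cancel_left, norm_mul, Complex.norm_real,
      Real.norm_of_nonneg (inv_nonneg.2 (hμpos n).le)]
    have := (hμpos n).ne'
    field_simp
  have hball : ∀ (n : ℕ) (t : ℂ), ‖t‖ ≤ ((n : ℝ) + 1) / 12 → ‖fderiv ℝ (H n) t‖ ≤ 2 ∧
      ‖deriv (Φ n) t‖ ≤ 4 / ((n : ℝ) + 1) := by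
    intro n t ht
    have hn : (0 : ℝ) < (n : ℝ) + 1 := by positivity
    have hd := hdist n t
    set ζ := z1 n + (((μ n)⁻¹ : ℝ) : ℂ) * t with hζ
    have hζ1 : ‖ζ - z1 n‖ * μ n ≤ ((n : ℝ) + 1) / 12 := by rw [hd]; exact ht
    have hζ0 := hin n ζ hζ1
    have hζR : ζ ∈ ball (z0 n) (R n) := by
      rw [mem_ball, dist_eq_norm]
      linarith [hR n]
    constructor
    · have e0 : ‖fderiv ℝ (H n) t‖ = (μ n)⁻¹ * ‖fderiv ℝ (P n) ζ‖ := by
        have := norm_fderiv_aff (Ψ := P n) (a := z1 n) (ρ := (μ n)⁻¹) (z := t)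
          (inv_nonneg.2 (hμpos n).le) (by rw [haff]; exact (hD n).hol.differentiableAt hζR)
        rw [haff] at this
        exact this
      rw [e0]
      have e1 := h3 n ζ hζ1
      rw [hfin n ζ (by
        rw [mem_closedBall, dist_eq_norm]
        linarith [hR n])] at e1
      calc (μ n)⁻¹ * ‖fderiv ℝ (P n) ζ‖ ≤ (μ n)⁻¹ * (2 * μ n) :=
            mul_le_mul_of_nonneg_left e1 (inv_nonneg.2 (hμpos n).le)
        _ = 2 := by
            have := (hμpos n).ne'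
            field_simp
    · have e0 : deriv (Φ n) t = (((μ n)⁻¹ : ℝ) : ℂ) • deriv (φ n) ζ := by
        have h4 := congrFun (iteratedDeriv_aff (φ n) (z1 n) (((μ n)⁻¹ : ℝ) : ℂ) 1) t
        rw [iteratedDeriv_one, iteratedDeriv_one, pow_one] at h4
        rw [hΦ]
        simp only
        rw [deriv_sub_const]
        exact h4
      rw [e0, norm_smul, Complex.norm_real, Real.norm_of_nonneg (inv_nonneg.2 (hμpos n).le)]
      have e1 := hbig n ζ hζ1
      have e2 : 4 * ‖ζ - z0 n‖ * σ n ≤ 1 := by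
        have e3 : ‖ζ - z0 n‖ * (((n : ℝ) + 1) * σ n) ≤ ((n : ℝ) + 1) / 4 :=
          (mul_le_mul_of_nonneg_left (hmσ n).le (norm_nonneg _)).trans e1
        have e4 : ((n : ℝ) + 1) * (4 * ‖ζ - z0 n‖ * σ n) ≤ ((n : ℝ) + 1) * 1 := by
          linarith
        exact le_of_mul_le_mul_left e4 hn
      have e3 : ‖deriv (φ n) ζ‖ ≤ 4 * σ n := by
        refine (deriv_le_sv_l (R := R n / 2) ((hD n).dif.mono ?_) (by linarith [hR n])).trans
          (sv_harnack_l (hD n).dif (hσpos n) (le_max_left _ _) (hσR n) e2)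
        apply ball_subset_ball'
        rw [dist_eq_norm]
        linarith [hR n]
      have e4 : ((n : ℝ) + 1) * σ n ≤ μ n := (hmσ n).le.trans (h1 n)
      calc (μ n)⁻¹ * ‖deriv (φ n) ζ‖ ≤ (μ n)⁻¹ * (4 * σ n) :=
            mul_le_mul_of_nonneg_left e3 (inv_nonneg.2 (hμpos n).le)
        _ ≤ 4 / ((n : ℝ) + 1) := by
            rw [inv_mul_le_iff₀ (hμpos n), mul_div_assoc', le_div_iff₀ hn]
            nlinarith
  set 𝓤 : Ultrafilter ℕ := hyperfilter ℕ with h𝓤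
  have hge : ∀ L : ℝ, ∀ᶠ n : ℕ in (𝓤 : Filter ℕ), L ≤ ((n : ℝ) + 1) / 12 := by
    intro L
    filter_upwards [hyper_ge (12 * L)] with n hn
    linarith
  have hDL : ∀ L : ℝ, ∀ᶠ n : ℕ in (𝓤 : Filter ℕ), Dsc T Λ a 0 L (H n) (Φ n) := by
    intro L
    filter_upwards [hge L] with n hn
    exact (hDH n).mono (ball_subset_ball hn)
  obtain ⟨G, hG, hGT, hGc, hGd⟩ := exists_limit_loc_l h.comp h.sub (𝓤 := 𝓤) (h := H)
    (fun L => (hDL L).mono fun _ h => h.hol) (fun L => (hDL L).mono fun _ h => h.mem) (by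
      intro L
      refine ⟨2, ?_⟩
      filter_upwards [hge L] with n hn z hz
      exact (hball n z ((mem_ball_zero_iff.1 hz).le.trans hn)).1)
  obtain ⟨Ψ, hΨ, hΨc, hΨd⟩ := exists_limit_fun_v (𝓤 := 𝓤) (φ := Φ)
    (fun L => (hDL L).mono fun _ h => h.dif) (by
      refine ⟨h.coc.choose, Eventually.of_forall fun n => ?_⟩
      have : Φ n 0 = φ n (z1 n) - l n := by
        rw [hΦ]
        simp
      rw [this]
      exact hl n) (by
      intro L
      refine ⟨4, ?_⟩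
      filter_upwards [hge L] with n hn z hz
      refine (hball n z ((mem_ball_zero_iff.1 hz).le.trans hn)).2.trans ?_
      rw [div_le_iff₀ (by positivity)]
      have : (0 : ℝ) ≤ n := Nat.cast_nonneg n
      linarith)
  have hΨ0 : ∀ z, deriv Ψ z = 0 := by
    intro z
    have e1 : Tendsto (fun n : ℕ => ‖deriv (Φ n) z‖) 𝓤 (𝓝 0) := by
      have e2 : Tendsto (fun n : ℕ => 4 / ((n : ℝ) + 1)) 𝓤 (𝓝 0) := by
        have e3 : Tendsto (fun n : ℕ => 4 / ((n : ℝ) + 1)) atTop (𝓝 0) := by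
          have := (tendsto_one_div_add_atTop_nhds_zero_nat (𝕜 := ℝ)).const_mul 4
          rw [mul_zero] at this
          refine this.congr fun n => ?_
          rw [mul_one_div]
        refine e3.mono_left ?_
        rw [← Nat.cofinite_eq_atTop]
        exact hyperfilter_le_cofinite
      refine squeeze_zero' (Eventually.of_forall fun _ => norm_nonneg _) ?_ e2
      filter_upwards [hge ‖z‖] with n hn
      exact (hball n z hn).2
    exact norm_eq_zero.1 (tendsto_nhds_unique (hΨd z).norm e1)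
  have hΨc' : ∀ z, Ψ z = Ψ 0 := fun z => is_const_of_deriv_eq_zero hΨ hΨ0 z 0
  have hover : Over Λ a G (fun _ => Ψ 0) := by
    intro z
    rw [← hΨc' z]
    have hz : ∀ᶠ n in (𝓤 : Filter ℕ), H n z ∈ T ∧ Φ n z - a (H n z) ∈ Λ := by
      filter_upwards [hDL (‖z‖ + 1)] with n hn
      have hzb : z ∈ ball (0 : ℂ) (‖z‖ + 1) := mem_ball_zero_iff.2 (by linarith)
      exact ⟨hn.mem z hzb, hn.ov z hzb⟩
    exact h.lim (l := (𝓤 : Filter ℕ)) (hz.mono fun _ h => h.1)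
      (hGc.pointwise (mem_univ z)) (hGT z) (hz.mono fun _ h => h.2)
      (hΨc.pointwise (mem_univ z))
  have hconst := hf G (Ψ 0) hG hGT hover
  have e1 : fderiv ℝ G 0 = 0 := by
    have : G = fun _ => G 0 := funext hconst
    rw [this]
    simp
  have e2 := (hGd 0).norm
  rw [e1, norm_zero] at e2
  have e3 : ∀ n, ‖fderiv ℝ (H n) 0‖ = 1 := by
    intro n
    have hz1R : z1 n ∈ ball (z0 n) (R n) := closedBall_subset_ball (by linarith [hR n]) (hz1in n)
    have h0 : z1 n + (((μ n)⁻¹ : ℝ) : ℂ) * 0 = z1 n := by simp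
    have := norm_fderiv_aff (Ψ := P n) (a := z1 n) (ρ := (μ n)⁻¹) (z := 0)
      (inv_nonneg.2 (hμpos n).le) (by rw [haff, h0]; exact (hD n).hol.differentiableAt hz1R)
    rw [haff, h0, ← hμeq] at this
    refine this.trans ?_
    exact inv_mul_cancel₀ (hμpos n).ne'
  simp only [e3] at e2
  exact zero_ne_one (tendsto_nhds_unique e2 tendsto_const_nhds)

end Pool.Agent.N154.TT
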