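import Pool.Agent.N154.TT.En
import Pool.Agent.N154.DD.Main

/-! Rescaled sequences of discs, for abelian varieties. -/

set_option autoImplicit false

open Filter Topology Metric Set

namespace Pool.Agent.N154.TT

open Pool.Agent.Y190.OP Pool.Agent.N155
open Pool.Agent.N154.GG (holP_comp_l exists_limit_loc_l hp_cont ball_sub_l UU uu_ge qk pigeon cf
  cf_nonneg cf_le_l LB_core_l norm_phi_le prod_dist_le)

variable {N m : ℕ} {T : Set (Mat N)} {Λ : AddSubgroup (Fin m → ℂ)} {a : Mat N → Fin m → ℂ}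

/-- derivatives and linear maps -/
theorem it_clm {F : Type*} [NormedAddCommGroup F] [NormedSpace ℂ F]
    (L : (Fin m → ℂ) →L[ℂ] F) {φ : ℂ → Fin m → ℂ} {z : ℂ} {R : ℝ}
    (hφ : DifferentiableOn ℂ φ (ball z R)) (k : ℕ) : ∀ w ∈ ball z R,
      iteratedDeriv k (fun t => L (φ t)) w = L (iteratedDeriv k φ w) := by
  induction k with
  | zero =>
    intro w _
    rw [iteratedDeriv_zero, iteratedDeriv_zero]
  | succ k ih =>
    intro w hw
    rw [iteratedDeriv_succ, iteratedDeriv_succ]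
    have h1 : iteratedDeriv k (fun t => L (φ t)) =ᶠ[𝓝 w] fun w => L (iteratedDeriv k φ w) := by
      filter_upwards [isOpen_ball.mem_nhds hw] with w' hw'
      exact ih w' hw'
    rw [h1.deriv_eq]
    have h2 : DifferentiableAt ℂ (iteratedDeriv k φ) w := by
      have h3 : AnalyticOnNhd ℂ φ (ball z R) := hφ.analyticOnNhd isOpen_ball
      rw [iteratedDeriv_eq_iterate]
      exact (h3.iterated_deriv k w hw).differentiableAt
    exact (L.hasFDerivAt.comp_hasDerivAt w h2.hasDerivAt).deriv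

theorem sv_clm (L : (Fin m → ℂ) →L[ℂ] (Fin m → ℂ)) {A : ℝ} (hA : 1 ≤ A) (hL : ‖L‖ ≤ A)
    {φ : ℂ → Fin m → ℂ} {z : ℂ} {R : ℝ} (hφ : DifferentiableOn ℂ φ (ball z R)) (hR : 0 < R)
    (c : Fin m → ℂ) : sv (fun t => L (φ t) + c) z ≤ A * sv φ z := by
  have hA0 : 0 ≤ A := by linarith
  apply sv_le (mul_nonneg hA0 (sv_nn φ z))
  intro k
  have h1 : iteratedDeriv (k + 1) (fun t => L (φ t) + c) z = L (iteratedDeriv (k + 1) φ z) := by
    rw [← it_clm L hφ (k + 1) z (mem_ball_self hR), iteratedDeriv_succ', iteratedDeriv_succ']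
    congr 1
    funext w
    rw [deriv_add_const]
  have h2 : cv (fun t => L (φ t) + c) (k + 1) z ≤ A * cv φ (k + 1) z := by
    unfold cv
    rw [h1, mul_div_assoc']
    apply div_le_div_of_nonneg_right _ (by positivity)
    exact (L.le_opNorm _).trans (mul_le_mul_of_nonneg_right hL (norm_nonneg _))
  refine h2.trans ?_
  rw [mul_pow]
  have h3 := cv_le_sv_l hφ hR k
  have h4 : A ≤ A ^ (k + 1) := le_self_pow₀ hA (Nat.succ_ne_zero k)
  calc A * cv φ (k + 1) z ≤ A * sv φ z ^ (k + 1) := mul_le_mul_of_nonneg_left h3 hA0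
    _ ≤ A ^ (k + 1) * sv φ z ^ (k + 1) :=
      mul_le_mul_of_nonneg_right h4 (pow_nonneg (sv_nn φ z) _)

/-- components -/
theorem cf_comp {φ : ℂ → Fin m → ℂ} {z : ℂ} {R : ℝ} (hφ : DifferentiableOn ℂ φ (ball z R))
    (hR : 0 < R) (i : Fin m) (k : ℕ) :
    cf (fun t => φ t i) k z = ‖iteratedDeriv k φ z i‖ / k.factorial := by
  have h1 := it_clm (ContinuousLinearMap.proj (R := ℂ) (φ := fun _ : Fin m => ℂ) i) hφ k z
    (mem_ball_self hR)
  unfold cf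
  have h2 : iteratedDeriv k (fun t => φ t i) z = iteratedDeriv k φ z i := h1
  rw [h2]

theorem cf_le_cv {φ : ℂ → Fin m → ℂ} {z : ℂ} {R : ℝ} (hφ : DifferentiableOn ℂ φ (ball z R))
    (hR : 0 < R) (i : Fin m) (k : ℕ) : cf (fun t => φ t i) k z ≤ cv φ k z := by
  rw [cf_comp hφ hR]
  unfold cv
  exact div_le_div_of_nonneg_right (norm_le_pi_norm _ i) (by positivity)

theorem cv_eq_cf {φ : ℂ → Fin m → ℂ} {z : ℂ} {R : ℝ} (hφ : DifferentiableOn ℂ φ (ball z R))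
    (hR : 0 < R) {k : ℕ} (h0 : 0 < cv φ k z) : ∃ i, cv φ k z = cf (fun t => φ t i) k z := by
  have h1 : 0 < ‖iteratedDeriv k φ z‖ := by
    by_contra hc
    push Not at hc
    have h2 : ‖iteratedDeriv k φ z‖ = 0 := le_antisymm hc (norm_nonneg _)
    unfold cv at h0
    rw [h2, zero_div] at h0
    exact lt_irrefl _ h0
  have hne : Nonempty (Fin m) := by
    by_contra hc
    rw [not_nonempty_iff] at hc
    have : iteratedDeriv k φ z = 0 := Subsingleton.elim _ _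
    rw [this, norm_zero] at h1
    exact lt_irrefl _ h1
  obtain ⟨i, hi⟩ := Pool.Agent.N154.GG.norm_attained (iteratedDeriv k φ z)
  refine ⟨i, ?_⟩
  rw [cf_comp hφ hR, ← hi]
  rfl

/-- the curves over the projections -/
theorem FF_dsc {r : ℕ} {v β : Fin r → Fin m → ℂ} {ℓ : Fin r → ((Fin m → ℂ) →L[ℂ] ℂ)}
    {e : Fin r → ℂ → Mat N} (hL : ∀ j, Lin T Λ a (e j) (v j) (β j)) (j : Fin r) {z : ℂ} {R : ℝ}
    {φ : ℂ → Fin m → ℂ} (hφ : DifferentiableOn ℂ φ (ball z R)) :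
    Dsc T Λ a z R (fun t => FF ℓ e j (φ t)) (fun t => ℓ j (φ t) • v j + β j) where
  hol := by
    have h1 : DifferentiableOn ℂ (fun t => ℓ j (φ t)) (ball z R) :=
      (ℓ j).differentiable.comp_differentiableOn hφ
    exact holP_comp_l (hL j).hol h1 isOpen_ball (mapsTo_univ _ _)
  mem := fun _ _ => (hL j).mem _
  dif := by
    have h1 : DifferentiableOn ℂ (fun t => ℓ j (φ t)) (ball z R) :=
      (ℓ j).differentiable.comp_differentiableOn hφ
    exact (h1.smul_const (v j)).add_const _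
  ov := fun w _ => (hL j).ov (ℓ j (φ w))

/-- the gradient estimate for the comparison maps -/
def GF {r : ℕ} (ℓ : Fin r → ((Fin m → ℂ) →L[ℂ] ℂ)) (e : Fin r → ℂ → Mat N) (C : ℝ) : Prop :=
  ∀ (j : Fin r) (φ : ℂ → Fin m → ℂ) (z : ℂ) (R : ℝ), 0 < R → DifferentiableOn ℂ φ (ball z R) →
    ‖fderiv ℝ (fun t => FF ℓ e j (φ t)) z‖ ≤ C * max (sv φ z) (1 / R)

theorem exists_GF {r : ℕ} {v β : Fin r → Fin m → ℂ} {ℓ : Fin r → ((Fin m → ℂ) →L[ℂ] ℂ)}
    {e : Fin r → ℂ → Mat N} (hL : ∀ j, Lin T Λ a (e j) (v j) (β j)) {C : ℝ} (hC0 : 0 < C)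
    (hC : GE T Λ a C) : ∃ C' : ℝ, 0 < C' ∧ GE T Λ a C' ∧ GF ℓ e C' := by
  set A : ℝ := 1 + ∑ j, ‖(ℓ j).smulRight (v j)‖ with hA
  have hs0 : 0 ≤ ∑ j, ‖(ℓ j).smulRight (v j)‖ := Finset.sum_nonneg fun _ _ => norm_nonneg _
  have hA1 : 1 ≤ A := by linarith
  have hAj : ∀ j, ‖(ℓ j).smulRight (v j)‖ ≤ A := fun j => by
    have := Finset.single_le_sum (f := fun j => ‖(ℓ j).smulRight (v j)‖)
      (fun _ _ => norm_nonneg _) (Finset.mem_univ j)
    linarith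
  refine ⟨C * A, by positivity, fun P φ z R hR hd => ?_, fun j φ z R hR hφ => ?_⟩
  · refine (hC P φ z R hR hd).trans ?_
    apply mul_le_mul_of_nonneg_right _ ((sv_nn φ z).trans (le_max_left _ _))
    nlinarith
  · refine (hC _ _ z R hR (FF_dsc hL j hφ)).trans ?_
    rw [mul_assoc]
    apply mul_le_mul_of_nonneg_left _ hC0.le
    have h1 := sv_clm ((ℓ j).smulRight (v j)) hA1 (hAj j) hφ hR (β j)
    have h2 : 0 < 1 / R := by positivity
    apply max_le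
    · refine le_trans h1 ?_
      exact mul_le_mul_of_nonneg_left (le_max_left _ _) (by linarith)
    · calc 1 / R ≤ A * (1 / R) := by nlinarith
        _ ≤ A * max (sv φ z) (1 / R) := mul_le_mul_of_nonneg_left (le_max_right _ _) (by linarith)

/-- a rescaled sequence of discs, with weights -/
structure SQv (T : Set (Mat N)) (Λ : AddSubgroup (Fin m → ℂ)) (a : Mat N → Fin m → ℂ) {r : ℕ}
    (ℓ : Fin r → ((Fin m → ℂ) →L[ℂ] ℂ)) (e : Fin r → ℂ → Mat N) (D : ℝ) (nn : ℕ → ℕ) (b : ℕ → ℂ)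
    (h : ℕ → ℂ → Mat N) (φ : ℕ → ℂ → Fin m → ℂ) : Prop where
  nge : ∀ k, k ≤ nn k
  dsc : ∀ k : ℕ, Dsc T Λ a 0 ((k : ℝ) + 1) (h k) (φ k)
  b0 : ∀ k, ‖φ k 0‖ ≤ D
  s0 : ∀ k, sv (φ k) 0 = 1
  d0 : ∀ k, 0 < ∏ j, ‖h k 0 - FF ℓ e j (φ k 0)‖
  bd : ∀ (k : ℕ) (t : ℂ), ‖t‖ ≤ k → sv (φ k) t ^ (qk (nn k)) *
    ((∏ j, ‖h k t - FF ℓ e j (φ k t)‖) * ‖Complex.exp (b k * t)‖) ≤
    2 * ∏ j, ‖h k 0 - FF ℓ e j (φ k 0)‖

variable {r : ℕ} {v β : Fin r → Fin m → ℂ} {ℓ : Fin r → ((Fin m → ℂ) →L[ℂ] ℂ)}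
  {e : Fin r → ℂ → Mat N} {D C : ℝ} {nn : ℕ → ℕ} {b : ℕ → ℂ}
  {h : ℕ → ℂ → Mat N} {φ : ℕ → ℂ → Fin m → ℂ}

/-- the lower bound of the scale -/
theorem sv_low {ψ : ℂ → Fin m → ℂ} {ρ R : ℝ} (hd : DifferentiableOn ℂ ψ (ball 0 ρ))
    (h0 : sv ψ 0 = 1) (hR : 0 ≤ R) (hρ : R + 4 * (R + 1) < ρ) {z : ℂ} (hz : ‖z‖ ≤ R) :
    1 / (4 * (R + 1)) ≤ sv ψ z := by
  set Rz : ℝ := ρ - ‖z‖ with hRz
  have hRz0 : 4 * (R + 1) < Rz := by linarith
  have hRzp : 0 < Rz := by linarith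
  set s : ℝ := max (sv ψ z) (1 / Rz) with hs
  have hsp : 0 < s := lt_of_lt_of_le (by positivity) (le_max_right _ _)
  have hRs : 1 ≤ Rz * s := by
    have h1 : 1 / Rz ≤ s := le_max_right _ _
    have h2 := mul_le_mul_of_nonneg_left h1 hRzp.le
    rwa [mul_one_div, div_self hRzp.ne'] at h2
  have hlow : 1 / (4 * (R + 1)) ≤ s := by
    rcases lt_or_ge 1 (4 * ‖(0 : ℂ) - z‖ * s) with h1 | h1
    · rw [zero_sub, norm_neg] at h1
      rw [div_le_iff₀ (by positivity)]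
      nlinarith
    · have h2 := sv_harnack_l (hd.mono ball_sub_l) hsp (le_max_left _ _) hRs h1
      rw [h0] at h2
      rw [div_le_iff₀ (by positivity)]
      nlinarith
  rcases le_total (sv ψ z) (1 / Rz) with h1 | h1
  · exfalso
    have h2 : s = 1 / Rz := max_eq_right h1
    rw [h2] at hlow
    have h3 := one_div_lt_one_div_of_lt (by positivity : (0 : ℝ) < 4 * (R + 1)) hRz0
    linarith
  · have h2 : s = sv ψ z := max_eq_left h1
    rwa [h2] at hlow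

/-- the gradient estimate in the middle of a large disc -/
theorem GE.mid (hC : GE T Λ a C) {P : ℂ → Mat N} {ψ : ℂ → Fin m → ℂ} {ρ R : ℝ}
    (hd : Dsc T Λ a 0 ρ P ψ) (h0 : sv ψ 0 = 1)
    (hR : 0 ≤ R) (hρ : R + 4 * (R + 1) < ρ) {z : ℂ} (hz : ‖z‖ ≤ R) :
    ‖fderiv ℝ P z‖ ≤ C * sv ψ z := by
  have hRz0 : 4 * (R + 1) < ρ - ‖z‖ := by linarith
  have h1 := hC P ψ z (ρ - ‖z‖) (by linarith) (hd.mono ball_sub_l)
  have h2 := sv_low hd.dif h0 hR hρ hz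
  have h3 : 1 / (ρ - ‖z‖) ≤ sv ψ z :=
    (one_div_le_one_div_of_le (by positivity) hRz0.le).trans h2
  rwa [max_eq_left h3] at h1

theorem GF.mid (hC : GF ℓ e C) (j : Fin r) {ψ : ℂ → Fin m → ℂ} {ρ R : ℝ}
    (hd : DifferentiableOn ℂ ψ (ball 0 ρ)) (h0 : sv ψ 0 = 1)
    (hR : 0 ≤ R) (hρ : R + 4 * (R + 1) < ρ) {z : ℂ} (hz : ‖z‖ ≤ R) :
    ‖fderiv ℝ (fun t => FF ℓ e j (ψ t)) z‖ ≤ C * sv ψ z := by
  have hRz0 : 4 * (R + 1) < ρ - ‖z‖ := by linarith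
  have h1 := hC j ψ z (ρ - ‖z‖) (by linarith) (hd.mono ball_sub_l)
  have h2 := sv_low hd h0 hR hρ hz
  have h3 : 1 / (ρ - ‖z‖) ≤ sv ψ z :=
    (one_div_le_one_div_of_le (by positivity) hRz0.le).trans h2
  rwa [max_eq_left h3] at h1

/-- the Harnack inequality in the middle of a large disc -/
theorem harnack_mid {ψ : ℂ → Fin m → ℂ} {ρ R : ℝ} (hd : DifferentiableOn ℂ ψ (ball 0 ρ))
    (h0 : sv ψ 0 = 1) (hR : 0 ≤ R) (hρ : R + 4 * (R + 1) < ρ) {z w : ℂ} (hz : ‖z‖ ≤ R)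
    (h : 4 * ‖w - z‖ * sv ψ z ≤ 1) : sv ψ w ≤ 4 * sv ψ z := by
  have hRz0 : 4 * (R + 1) < ρ - ‖z‖ := by linarith
  have h2 := sv_low hd h0 hR hρ hz
  have h2p : 0 < 1 / (4 * (R + 1)) := by positivity
  refine sv_harnack_l (hd.mono ball_sub_l) (h2p.trans_le h2) le_rfl ?_ h
  have h3 : 1 / (4 * (R + 1)) * (4 * (R + 1)) = 1 := by
    field_simp
  nlinarith

theorem SQv.dscL (hs : SQv T Λ a ℓ e D nn b h φ) (L : ℝ) :
    ∀ᶠ k in (UU : Filter ℕ), Dsc T Λ a 0 L (h k) (φ k) := by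
  filter_upwards [uu_ge L] with k hk
  exact (hs.dsc k).mono (ball_subset_ball (by linarith))

theorem SQv.LB (hs : SQv T Λ a ℓ e D nn b h φ) (hL : ∀ j, Lin T Λ a (e j) (v j) (β j))
    (hC0 : 0 < C) (hC : GE T Λ a C) (hF : GF ℓ e C) (r0 : ℝ) :
    ∃ K : ℝ, ∀ᶠ k in (UU : Filter ℕ), ∀ t : ℂ, ‖t‖ ≤ r0 → sv (φ k) t ≤ K := by
  by_contra hcon
  push Not at hcon
  obtain ⟨S, R, n0, hS, hR, hmR, hmain⟩ := LB_core_l (N := N) (r := r) (m0 := max r0 0 + 3) hC0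
    (by linarith [le_max_right r0 0])
  have h1 := hcon S
  obtain ⟨k, ⟨t, ht, hst⟩, hkR, hkn⟩ := (h1.and ((uu_ge (R + 4 * (R + 1))).and
    (uu_ge (n0 : ℝ)))).exists
  have hm0 : 0 ≤ max r0 0 := le_max_right _ _
  have hmr : r0 ≤ max r0 0 := le_max_left _ _
  have hk1 : R + 4 * (R + 1) < (k : ℝ) + 1 := by linarith
  obtain ⟨t1, ht1, hs1⟩ := sv_max_l (hs.dsc k).dif hS.le hst
    (show ‖t‖ < max r0 0 + 3 - 2 by linarith) (by linarith)
  obtain ⟨t2, ht2, hs2⟩ := sv_max_l (hs.dsc k).dif hS.le hst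
    (show ‖t‖ < max r0 0 + 3 by linarith) (by linarith)
  have hd0 := hs.d0 k
  refine hmain (nn k + 1).factorial ?_ (b k) (h k) (fun j t => FF ℓ e j (φ k t)) (sv (φ k)) t1 t2
    ((hs.dsc k).mono (ball_subset_ball (by linarith))).hol
    (fun j => (FF_dsc hL j ((hs.dsc k).dif.mono (ball_subset_ball (by linarith)))).hol)
    (sv_nn (φ k))
    (fun z w hz hw hh => harnack_mid (hs.dsc k).dif (hs.s0 k) hR.le hk1 hz hh)
    (fun z hz => hC.mid (hs.dsc k) (hs.s0 k) hR.le hk1 hz)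
    (fun j z hz => hF.mid j (hs.dsc k).dif (hs.s0 k) hR.le hk1 hz)
    (hs.s0 k) (hs.d0 k) ?_ ht1 ht2 hs1 hs2
  · have h2 : n0 ≤ k := by exact_mod_cast hkn
    exact (h2.trans (hs.nge k)).trans ((Nat.le_succ _).trans (Nat.self_le_factorial _))
  · intro t ht
    have h3 := hs.bd k t (by linarith)
    rw [mul_zero, Complex.exp_zero, norm_one, mul_one]
    exact h3

theorem SQv.lim (hT : TV T Λ a) (hs : SQv T Λ a ℓ e D nn b h φ)
    (hL : ∀ j, Lin T Λ a (e j) (v j) (β j)) (hC0 : 0 < C) (hC : GE T Λ a C) (hF : GF ℓ e C) :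
    ∃ (Φ : ℂ → Fin m → ℂ) (H : ℂ → Mat N), Differentiable ℂ Φ ∧
      CConv (UU : Filter ℕ) univ φ Φ ∧ HolP univ H ∧ (∀ z, H z ∈ T) ∧
      CConv (UU : Filter ℕ) univ h H ∧ Over Λ a H Φ := by
  obtain ⟨Φ, hΦ, hΦc, -⟩ := exists_limit_fun_v (𝓤 := UU) (φ := φ)
    (fun L => (hs.dscL L).mono fun _ h => h.dif)
    ⟨D, Eventually.of_forall hs.b0⟩ (by
      intro L
      obtain ⟨K, hK⟩ := hs.LB hL hC0 hC hF L
      refine ⟨K, ?_⟩
      filter_upwards [hK, hs.dscL L] with k hk hd z hz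
      exact (deriv_le_sv_l (hd.dif.mono ball_sub_l) (by
        have := mem_ball_zero_iff.1 hz
        linarith)).trans (hk z (mem_ball_zero_iff.1 hz).le))
  obtain ⟨H, hH, hHT, hHc, -⟩ := exists_limit_loc_l hT.comp hT.sub (𝓤 := UU) (h := h)
    (fun L => (hs.dscL L).mono fun _ h => h.hol) (fun L => (hs.dscL L).mono fun _ h => h.mem) (by
      intro L
      obtain ⟨K, hK⟩ := hs.LB hL hC0 hC hF (max L 0)
      refine ⟨C * K, ?_⟩
      filter_upwards [hK, uu_ge (max L 0 + 4 * (max L 0 + 1))] with k hk hkL z hz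
      have hz' : ‖z‖ ≤ max L 0 := (mem_ball_zero_iff.1 hz).le.trans (le_max_left _ _)
      exact (hC.mid (hs.dsc k) (hs.s0 k) (le_max_right L 0) (by linarith) hz').trans
        (mul_le_mul_of_nonneg_left (hk z hz') hC0.le))
  refine ⟨Φ, H, hΦ, hΦc, hH, hHT, hHc, fun z => ?_⟩
  have hz : ∀ᶠ n in (UU : Filter ℕ), h n z ∈ T ∧ φ n z - a (h n z) ∈ Λ := by
    filter_upwards [hs.dscL (‖z‖ + 1)] with n hn
    have hzb : z ∈ ball (0 : ℂ) (‖z‖ + 1) := mem_ball_zero_iff.2 (by linarith)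
    exact ⟨hn.mem z hzb, hn.ov z hzb⟩
  exact hT.lim (l := (UU : Filter ℕ)) (hz.mono fun _ h => h.1)
    (hHc.pointwise (mem_univ z)) (hHT z) (hz.mono fun _ h => h.2)
    (hΦc.pointwise (mem_univ z))

/-- the order of the dominating coefficient -/
theorem SQv.coef (hs : SQv T Λ a ℓ e D nn b h φ) (hL : ∀ j, Lin T Λ a (e j) (v j) (β j))
    (hC0 : 0 < C) (hC : GE T Λ a C) (hF : GF ℓ e C) :
    ∃ (i : Fin m) (q : ℕ), ∀ᶠ k in (UU : Filter ℕ), ∀ p : ℕ, p * (q + 1) = qk (nn k) →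
      1 / 2 ≤ cf (fun t => φ k t i) (q + 1) 0 ^ p := by
  set s : ℕ → ℝ := fun k => (1 / 2 : ℝ) ^ (((qk (nn k) : ℕ) : ℝ)⁻¹) with hsdef
  have hqpos : ∀ k, qk (nn k) ≠ 0 := fun k => by
    unfold qk
    positivity
  have hq1 : ∀ k, (1 : ℝ) ≤ (qk (nn k) : ℝ) := fun k => by
    exact_mod_cast Nat.one_le_iff_ne_zero.2 (hqpos k)
  have hs0 : ∀ k, 0 < s k := fun k => by positivity
  have hspow : ∀ k, s k ^ (qk (nn k)) = 1 / 2 := fun k =>
    Real.rpow_inv_natCast_pow (by norm_num) (hqpos k)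
  have hs1 : ∀ k, s k < 1 := fun k =>
    Real.rpow_lt_one (by norm_num) (by norm_num) (inv_pos.2 (by linarith [hq1 k]))
  have hs2 : ∀ k, 1 / 2 ≤ s k := by
    intro k
    have h1 := Real.rpow_le_rpow_of_exponent_ge (x := 1 / 2) (y := 1)
      (z := ((qk (nn k) : ℕ) : ℝ)⁻¹) (by norm_num) (by norm_num) (inv_le_one_of_one_le₀ (hq1 k))
    rwa [Real.rpow_one] at h1
  choose q hq using fun k => exists_cv_l (φ := φ k) (z := 0) (hs0 k).le
    (show s k < sv (φ k) 0 by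
      rw [hs.s0 k]
      exact hs1 k)
  have hci : ∀ k, ∃ i, cv (φ k) (q k + 1) 0 = cf (fun t => φ k t i) (q k + 1) 0 := fun k =>
    cv_eq_cf (hs.dsc k).dif (by positivity) ((pow_pos (hs0 k) _).trans (hq k))
  choose i hi using hci
  obtain ⟨K, hK⟩ := hs.LB hL hC0 hC hF 4
  have hbound : ∀ᶠ k in (UU : Filter ℕ), ∃ q' < ⌈4 * K⌉₊, q k = q' := by
    filter_upwards [hK, hs.dscL 5] with k hk hd
    refine ⟨q k, ?_, rfl⟩
    have hK0 : 0 ≤ K := (sv_nn (φ k) 0).trans (hk 0 (by simp))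
    have h1 : ∀ w ∈ sphere (0 : ℂ) 4, ‖φ k w - φ k 0‖ ≤ 4 * K := by
      intro w hw
      rw [mem_sphere_zero_iff_norm] at hw
      have h6 : ‖φ k w - φ k 0‖ ≤ K * ‖w - 0‖ :=
        (convex_closedBall (0 : ℂ) 4).norm_image_sub_le_of_norm_deriv_le
          (fun x hx => hd.dif.differentiableAt (isOpen_ball.mem_nhds
            (closedBall_subset_ball (by norm_num) hx)))
          (fun x hx => (deriv_le_sv_l (hd.dif.mono ball_sub_l) (by
            have := mem_closedBall_zero_iff.1 hx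
            linarith)).trans (hk x (mem_closedBall_zero_iff.1 hx)))
          (mem_closedBall_self (by norm_num)) (mem_closedBall_zero_iff.2 hw.le)
      rw [sub_zero, hw] at h6
      linarith
    have h2 := cv_le_l hd.dif (by norm_num) (by norm_num) h1 (q k)
    have h3 : (1 / 2 : ℝ) ^ (q k + 1) ≤ s k ^ (q k + 1) :=
      pow_le_pow_left₀ (by norm_num) (hs2 k) _
    have h4 : (1 / 2 : ℝ) ^ (q k + 1) < 4 * K / 4 ^ (q k + 1) := (h3.trans_lt (hq k)).trans_le h2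
    rw [lt_div_iff₀ (by positivity), ← mul_pow] at h4
    norm_num at h4
    have h5 : ((q k : ℝ) + 1) < 2 ^ (q k + 1) := by
      have := Nat.lt_two_pow_self (n := q k + 1)
      exact_mod_cast this
    have h6 : (q k : ℝ) < 4 * K := by linarith
    have h7 := h6.trans_le (Nat.le_ceil (4 * K))
    exact_mod_cast h7
  obtain ⟨q', hq'⟩ := pigeon hbound
  have hbi : ∀ᶠ k in (UU : Filter ℕ), ∃ i' < m, (i k : ℕ) = i' :=
    Eventually.of_forall fun k => ⟨i k, (i k).2, rfl⟩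
  obtain ⟨i', hi'⟩ := pigeon hbi
  obtain ⟨k0, hk0⟩ := hi'.exists
  refine ⟨i k0, q', ?_⟩
  filter_upwards [hq', hi'] with k hk hki p hp
  have hik : i k = i k0 := Fin.ext (hki.trans hk0.symm)
  have h1 := hq k
  rw [hi k, hk, hik] at h1
  calc (1 / 2 : ℝ) = s k ^ (qk (nn k)) := (hspow k).symm
    _ = (s k ^ (q' + 1)) ^ p := by rw [← pow_mul, ← hp, mul_comm]
    _ ≤ cf (fun t => φ k t (i k0)) (q' + 1) 0 ^ p :=
      pow_le_pow_left₀ (pow_nonneg (hs0 k).le _) h1.le p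

end Pool.Agent.N154.TT
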